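import Pool.Agent.Helper24.UN.Union
import Pool.Agent.Helper68.BR.FinalG

/-!
# The union with a class of simple groups

`𝒮` is a class of simple groups, closed under isomorphisms and `p`-good (`hSG`). `final_full`: if all
alternating groups of degree at least `2 p` are `p`-good then Q1 holds for all finite groups with a series
whose factors are abelian, have cyclic Sylow `p`-subgroups, are alternating groups, are groups
`PSL(2, k)`, or have the property that all their subgroups of index prime to `p` have a series with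
factors which are abelian, have cyclic Sylow `p`-subgroups, are alternating, are groups `PSL(2, k)` or
are simple groups in `𝒮`.
-/

set_option autoImplicit false

open scoped Pointwise IsMulCommutative MatrixGroups

namespace Pool.Agent.Helper24.UN

open Pool.Agent.Helper42.INC Pool.Agent.Helper7.MK Pool.Agent.Helper24.S7 Pool.Agent.Helper57.AN
open Pool.Agent.Helper68.BR

/-- the union of `AP` and the class `𝒮` -/
def AS (p : ℕ) (𝒮 : (F : Type) → [Group F] → Prop) (F : Type) [Group F] : Prop := AP p F ∨ 𝒮 F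

/-- the basic factors -/
def Bas (p : ℕ) (𝒮 : (F : Type) → [Group F] → Prop) (F : Type) [Group F] : Prop :=
  (∀ a b : F, a * b = b * a) ∨ (∀ P : Sylow p F, IsCyclic P) ∨
    (∃ m : ℕ, Nonempty (F ≃* alternatingGroup (Fin m))) ∨
    (∃ (k : Type) (_ : Field k) (_ : Finite k),
      Nonempty (F ≃* Matrix.ProjectiveSpecialLinearGroup (Fin 2) k)) ∨
    (IsSimpleGroup F ∧ 𝒮 F)

/-- a series of `G` with factors in the class `R` -/
def HSer (R : (F : Type) → [Group F] → Prop) (G : Type) [Group G] : Prop :=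
  ∃ (n : ℕ) (M : ℕ → Subgroup G), M 0 = ⊥ ∧ M n = ⊤ ∧
    ∀ i < n, M i ≤ M (i + 1) ∧ ∃ _ : ((M i).subgroupOf (M (i + 1))).Normal,
      R (M (i + 1) ⧸ (M i).subgroupOf (M (i + 1)))

/-- the allowed factors -/
def Alw (p : ℕ) (𝒮 : (F : Type) → [Group F] → Prop) (F : Type) [Group F] : Prop :=
  (∀ a b : F, a * b = b * a) ∨ (∀ P : Sylow p F, IsCyclic P) ∨
    (∃ m : ℕ, Nonempty (F ≃* alternatingGroup (Fin m))) ∨
    (∃ (k : Type) (_ : Field k) (_ : Finite k),
      Nonempty (F ≃* Matrix.ProjectiveSpecialLinearGroup (Fin 2) k)) ∨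
    (∀ L : Subgroup F, ¬ p ∣ L.index → HSer (fun X [Group X] => Bas p 𝒮 X) L)

variable {p : ℕ} {𝒮 : (F : Type) → [Group F] → Prop}

theorem as_iso [Fact p.Prime] (hp : 3 ≤ p) (hS : IsoCl 𝒮) : IsoCl (fun F [Group F] => AS p 𝒮 F) := by
  intro X Y _ _ e h
  rcases h with h | h
  · exact Or.inl ((ap_simp hp).congr X Y e h)
  · exact Or.inr (hS X Y e h)

/-- the classes of Helper57/AN/Cls.lean and Helper68/BR/ClsG.lean -/
theorem clsG_of_cls [Fact p.Prime] (hp : 3 ≤ p) {G : Type} [Group G] (hG : Cls p (AP p) G) :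
    ClsG p (fun F [Group F] => AS p 𝒮 F) G := by
  induction hG with
  | triv G => exact ClsG.triv G
  | ext G N hN hQ ih =>
    refine ClsG.ext G N ih ?_
    rcases hQ with hQ | hQ | hQ
    · exact Or.inl hQ
    · exact Or.inr (Or.inl hQ)
    · exact Or.inr (Or.inr ⟨(ap_simp hp).simple _ hQ, Or.inl hQ⟩)

/-- alternating groups are in `AP` or have cyclic Sylow `p`-subgroups -/
theorem alt_fac [Fact p.Prime] {F : Type} [Group F] [Finite F] {m : ℕ} (e : F ≃* alternatingGroup (Fin m)) :
    (∀ P : Sylow p F, IsCyclic P) ∨ AP p F := by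
  by_cases hm : 2 * p ≤ m
  · exact Or.inr (Or.inl ⟨m, hm, ⟨e⟩⟩)
  · refine Or.inl ?_
    have h7 : ∀ P : Sylow p (Equiv.Perm (Fin m)), IsCyclic P :=
      cyc_perm (by rw [Nat.card_eq_fintype_card, Fintype.card_fin]; omega)
    have h8 := Pool.Agent.Helper42.PL.cyc_of_inj (alternatingGroup (Fin m)).subtype
      (Subgroup.subtype_injective _) h7
    exact Pool.Agent.Helper42.PL.cyc_of_inj e.toMonoidHom e.injective h8

/-- the groups `PSL(2, k)` are in `AP` or have cyclic Sylow `p`-subgroups -/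
theorem psl_fac [Fact p.Prime] (hp2 : p ≠ 2) {F : Type} [Group F] [Finite F] {k : Type} [Field k] [Finite k]
    (e : F ≃* Matrix.ProjectiveSpecialLinearGroup (Fin 2) k) :
    (∀ P : Sylow p F, IsCyclic P) ∨ AP p F := by
  rcases Pool.Agent.Helper57.PL.psl_cases (k := k) hp2 with h5 | ⟨h5, h6⟩
  · exact Or.inl (Pool.Agent.Helper42.PL.cyc_of_inj e.toMonoidHom e.injective h5)
  · exact Or.inr (Or.inr ⟨k, inferInstance, inferInstance, h5, h6, ⟨e⟩⟩)

theorem bas_fac [Fact p.Prime] (hp : 3 ≤ p) {F : Type} [Group F] [Finite F] (h : Bas p 𝒮 F) :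
    FacG p (fun F [Group F] => AS p 𝒮 F) F := by
  have key : ((∀ P : Sylow p F, IsCyclic P) ∨ AP p F) → FacG p (fun F [Group F] => AS p 𝒮 F) F := by
    rintro (h | h)
    · exact Or.inr (Or.inl h)
    · exact Or.inr (Or.inr ⟨(ap_simp hp).simple _ h, Or.inl h⟩)
  rcases h with h | h | ⟨m, ⟨e⟩⟩ | ⟨k, _, _, ⟨e⟩⟩ | ⟨h1, h2⟩
  · exact Or.inl h
  · exact Or.inr (Or.inl h)
  · exact key (alt_fac e)
  · exact key (psl_fac (by omega) e)
  · exact Or.inr (Or.inr ⟨h1, Or.inr h2⟩)

/-- from series to classes -/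
theorem ser_cls [Fact p.Prime] (hp : 3 ≤ p) (hS : IsoCl 𝒮) {H : Type} [Group H] [Finite H]
    (h : HSer (fun X [Group X] => Bas p 𝒮 X) H) : ClsG p (fun F [Group F] => AS p 𝒮 F) H := by
  obtain ⟨n, M, h0, h1, hs⟩ := h
  have key : ∀ i ≤ n, ClsG p (fun F [Group F] => AS p 𝒮 F) (M i) := by
    intro i
    induction i with
    | zero =>
      intro _
      have : Subsingleton (M 0) := by
        rw [h0]
        infer_instance
      exact ClsG.triv _
    | succ i ih =>
      intro hi
      obtain ⟨h2, h3, h4⟩ := hs i hi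
      refine ClsG.ext _ ((M i).subgroupOf (M (i + 1))) ?_ (bas_fac hp h4)
      exact (ih (Nat.le_of_succ_le hi)).congr (as_iso hp hS) (Subgroup.subgroupOfEquivOfLe h2).symm
  have h2 := key n le_rfl
  rw [h1] at h2
  exact h2.congr (as_iso hp hS) Subgroup.topEquiv

/-- `CCG` is closed under extensions -/
theorem ccg_extn [Fact p.Prime] {S : (F : Type) → [Group F] → Prop} (hS : IsoCl S) {X Q : Type} [Group X]
    [Group Q] [Finite X] (f : X →* Q) (hf : Function.Surjective f) (hk : CCG p S f.ker) (h : CCG p S Q) :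
    CCG p S X := by
  intro H hH
  have hA : ClsG p S (H.subgroupOf f.ker) := hk _ (her_idx1 f.ker H hH)
  have hB : ClsG p S (H.map f) := h _ fun hd => hH (hd.trans (Subgroup.index_map_dvd H hf))
  let g : H →* H.map f := f.subgroupMap H
  refine hB.extn_aux hS H g (MonoidHom.subgroupMap_surjective _ _) ?_
  have e : H.subgroupOf f.ker ≃* g.ker :=
    { toFun := fun x => ⟨⟨x.1.1, x.2⟩, by
        rw [MonoidHom.mem_ker]
        apply Subtype.ext
        exact MonoidHom.mem_ker.1 x.1.2⟩
      invFun := fun x => ⟨⟨x.1.1, by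
        have := congrArg Subtype.val (MonoidHom.mem_ker.1 x.2)
        exact MonoidHom.mem_ker.2 this⟩, x.1.2⟩
      left_inv := fun x => rfl
      right_inv := fun x => rfl
      map_mul' := fun x y => rfl }
  exact hA.congr hS e

theorem ccg_surj [Fact p.Prime] {S : (F : Type) → [Group F] → Prop} (hS : IsoCl S) {X Y : Type} [Group X]
    [Group Y] [Finite X] (f : X →* Y) (hf : Function.Surjective f) (h : CCG p S X) : CCG p S Y := by
  have : Finite Y := Finite.of_surjective f hf
  exact (ccg_class p hS).2 X Y f hf h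

/-- the allowed factors are hereditary -/
theorem alw_ccg [Fact p.Prime] (hp : 3 ≤ p) (hS : IsoCl 𝒮) {F : Type} [Group F] [Finite F]
    (h : Alw p 𝒮 F) : CCG p (fun F [Group F] => AS p 𝒮 F) F := by
  have hcyc : (∀ P : Sylow p F, IsCyclic P) → CCG p (fun F [Group F] => AS p 𝒮 F) F := by
    intro h H _
    refine ClsG.of_fac (as_iso hp hS) (Or.inr (Or.inl ?_))
    exact Pool.Agent.Helper42.PL.cyc_of_inj H.subtype H.subtype_injective h
  have key : ((∀ P : Sylow p F, IsCyclic P) ∨ AP p F) → CCG p (fun F [Group F] => AS p 𝒮 F) F := by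
    rintro (h | h)
    · exact hcyc h
    · intro H hH
      exact clsG_of_cls hp (ap_her hp F h H hH)
  rcases h with h | h | ⟨m, ⟨e⟩⟩ | ⟨k, _, _, ⟨e⟩⟩ | h
  · intro H _
    refine ClsG.of_comm (as_iso hp hS) ?_
    intro a b
    exact Subtype.ext (h a b)
  · exact hcyc h
  · exact key (alt_fac e)
  · exact key (psl_fac (by omega) e)
  · intro H hH
    exact ser_cls hp hS (h H hH)

/-- groups with a series with allowed factors -/
theorem ser_ccg [Fact p.Prime] (hp : 3 ≤ p) (hS : IsoCl 𝒮) {G : Type} [Group G] [Finite G]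
    (h : HSer (fun X [Group X] => Alw p 𝒮 X) G) : CCG p (fun F [Group F] => AS p 𝒮 F) G := by
  obtain ⟨n, M, h0, h1, hs⟩ := h
  have hI := as_iso (p := p) hp hS
  have key : ∀ i ≤ n, CCG p (fun F [Group F] => AS p 𝒮 F) (M i) := by
    intro i
    induction i with
    | zero =>
      intro _ H _
      have : Subsingleton (M 0) := by
        rw [h0]
        infer_instance
      exact ClsG.triv _
    | succ i ih =>
      intro hi
      obtain ⟨h2, h3, h4⟩ := hs i hi
      refine ccg_extn hI (QuotientGroup.mk' ((M i).subgroupOf (M (i + 1))))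
        (QuotientGroup.mk'_surjective _) ?_ (alw_ccg hp hS h4)
      rw [QuotientGroup.ker_mk']
      exact ccg_surj hI (Subgroup.subgroupOfEquivOfLe h2).symm.toMonoidHom
        (Subgroup.subgroupOfEquivOfLe h2).symm.surjective (ih (Nat.le_of_succ_le hi))
  have h2 := key n le_rfl
  rw [h1] at h2
  exact ccg_surj hI (Subgroup.topEquiv (G := G)).toMonoidHom (Subgroup.topEquiv (G := G)).surjective h2

theorem final_full (p : ℕ) [Fact p.Prime] (h3 : 3 ≤ p) (hS : IsoCl 𝒮)
    (hSG : ∀ (F : Type) [Group F], IsSimpleGroup F → (¬ ∀ a b : F, a * b = b * a) → 𝒮 F →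
      ∀ (K : Type) [Group K] [Finite K], ⁅(⊤ : Subgroup K), (⊤ : Subgroup K)⁆ = ⊤ →
        Nonempty ((K ⧸ Subgroup.center K) ≃* F) → ¬ p ∣ Nat.card (Subgroup.center K) →
        p ∣ Nat.card K → Good p K)
    (hPG : ∀ m : ℕ, 2 * p ≤ m → PGood p (alternatingGroup (Fin m)))
    (G : Type) [Group G] [Finite G] (h : HSer (fun X [Group X] => Alw p 𝒮 X) G) :
    McKayCongr p G := by
  have hp2 : p ≠ 2 := by omega
  refine final_ccg (as_iso h3 hS) ?_ G (ser_ccg h3 hS h)
  intro F _ hF hF' hFS K _ _ hK he hz hpK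
  rcases hFS with (⟨m, hm, ⟨e⟩⟩ | ⟨k, _, _, _, h4, ⟨e⟩⟩) | h
  · exact pgood_congr e (hPG m hm) K hK he hz
  · exact pgood_congr e (Pool.Agent.Helper57.PL.pgood_of hp2 (Pool.Agent.Helper55.PL.slGood p hp2 k)) K hK he hz
  · exact hSG F hF hF' h K hK he hz hpK

end Pool.Agent.Helper24.UN
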