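import Pool.Agent.Helper57.AN.FinalAlt
import Pool.Agent.Helper55.PL.Top
import Pool.Agent.Helper57.PL.Prime
import Pool.Agent.Helper42.PL.Final

/-!
# Alternating groups and PSL(2, k) together

`final_union`: if all alternating groups of degree at least `2 p` are `p`-good then Q1 holds for all finite groups
with a series whose factors are abelian, have cyclic Sylow `p`-subgroups, or are alternating groups or
groups `PSL(2, k)`, `k` a finite field.
-/

set_option autoImplicit false

open scoped Pointwise IsMulCommutative MatrixGroups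

namespace Pool.Agent.Helper24.UN

open Pool.Agent.Helper42.INC Pool.Agent.Helper7.MK Pool.Agent.Helper24.S7 Pool.Agent.Helper57.AN

/-- `PSL(2, k)`, `k` a finite field of characteristic `p` with more than three elements -/
def Psl (p : ℕ) (F : Type) [Group F] : Prop :=
  ∃ (k : Type) (_ : Field k) (_ : Finite k) (_ : CharP k p), 3 < Nat.card k ∧
    Nonempty (F ≃* Matrix.ProjectiveSpecialLinearGroup (Fin 2) k)

/-- the union of the two classes -/
def AP (p : ℕ) (F : Type) [Group F] : Prop := Alt p F ∨ Psl p F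

variable {p : ℕ}

/-- `Cls` is monotone in the class of simple groups -/
theorem cls_mono {𝓕 𝓖 : (F : Type) → [Group F] → Prop} (h : ∀ (X : Type) [Group X], 𝓕 X → 𝓖 X) {G : Type} [Group G]
    (hG : Cls p 𝓕 G) : Cls p 𝓖 G := by
  induction hG with
  | triv G => exact Cls.triv G
  | ext G N hN hQ ih =>
    refine Cls.ext G N ih ?_
    rcases hQ with hQ | hQ | hQ
    · exact Or.inl hQ
    · exact Or.inr (Or.inl hQ)
    · exact Or.inr (Or.inr (h _ hQ))

/-- the class of project PL is contained in the class with `Psl` -/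
theorem cls_of_pl {G : Type} [Group G] (hG : Pool.Agent.Helper42.PL.Cls p G) : Cls p (AP p) G := by
  induction hG with
  | triv G => exact Cls.triv G
  | ext G N hN hQ ih =>
    refine Cls.ext G N ih ?_
    rcases hQ with hQ | hQ | hQ
    · exact Or.inl hQ
    · exact Or.inr (Or.inl hQ)
    · exact Or.inr (Or.inr (Or.inr hQ))

theorem ap_simp [Fact p.Prime] (hp : 3 ≤ p) : Simp (AP p) where
  congr X Y _ _ e h := by
    rcases h with h | ⟨k, h1, h2, h3, h4, ⟨f⟩⟩
    · exact Or.inl ((alt_simp hp).congr X Y e h)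
    · exact Or.inr ⟨k, h1, h2, h3, h4, ⟨e.symm.trans f⟩⟩
  simple X _ h := by
    rcases h with h | ⟨k, h1, h2, h3, h4, ⟨f⟩⟩
    · exact (alt_simp hp).simple X h
    · have h5 := Pool.Agent.Helper42.PL.psl_simple k h4
      exact f.symm.isSimpleGroup_congr.1 h5

theorem ap_her [Fact p.Prime] (hp : 3 ≤ p) (F : Type) [Group F] [Finite F] (h : AP p F) : Her p (AP p) F := by
  rcases h with h | h
  · intro H hH
    exact cls_mono (fun X _ hX => Or.inl hX) (her_alt hp h H hH)
  · intro H hH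
    exact cls_of_pl (Pool.Agent.Helper42.PL.fac_idx (Or.inr (Or.inr h)) H hH)

theorem final_union (p : ℕ) [Fact p.Prime] (h3 : 3 ≤ p)
    (hPG : ∀ m : ℕ, 2 * p ≤ m → PGood p (alternatingGroup (Fin m)))
    (G : Type) [Group G] [Finite G] (n : ℕ) (H : ℕ → Subgroup G) (h0 : H 0 = ⊥) (h1 : H n = ⊤)
    (hs : ∀ i < n, H i ≤ H (i + 1) ∧ ∃ _ : ((H i).subgroupOf (H (i + 1))).Normal,
      (∀ a b : H (i + 1) ⧸ (H i).subgroupOf (H (i + 1)), a * b = b * a) ∨
      (∀ P : Sylow p (H (i + 1) ⧸ (H i).subgroupOf (H (i + 1))), IsCyclic P) ∨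
      (∃ m : ℕ, Nonempty ((H (i + 1) ⧸ (H i).subgroupOf (H (i + 1))) ≃* alternatingGroup (Fin m))) ∨
      ∃ (k : Type) (_ : Field k) (_ : Finite k), Nonempty ((H (i + 1) ⧸ (H i).subgroupOf (H (i + 1))) ≃*
        Matrix.ProjectiveSpecialLinearGroup (Fin 2) k)) :
    McKayCongr p G := by
  have hp2 : p ≠ 2 := by omega
  refine final_gen (ap_simp h3) (fun F _ _ h => ap_her h3 F h) ?_ G n H h0 h1 ?_
  · rintro F _ _ (⟨m, hm, ⟨e⟩⟩ | ⟨k, _, _, _, h4, ⟨e⟩⟩)
    · exact pgood_congr e (hPG m hm)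
    · exact pgood_congr e (Pool.Agent.Helper57.PL.pgood_of hp2 (Pool.Agent.Helper55.PL.slGood p hp2 k) )
  · intro i hi
    obtain ⟨h4, h5, h6⟩ := hs i hi
    refine ⟨h4, h5, ?_⟩
    rcases h6 with h6 | h6 | ⟨m, ⟨e⟩⟩ | ⟨k, _, _, ⟨e⟩⟩
    · exact Or.inl h6
    · exact Or.inr (Or.inl h6)
    · by_cases hm : 2 * p ≤ m
      · exact Or.inr (Or.inr (Or.inl ⟨m, hm, ⟨e⟩⟩))
      · refine Or.inr (Or.inl ?_)
        have h7 : ∀ P : Sylow p (Equiv.Perm (Fin m)), IsCyclic P :=
          cyc_perm (by rw [Nat.card_eq_fintype_card, Fintype.card_fin]; omega)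
        have h8 := Pool.Agent.Helper42.PL.cyc_of_inj (alternatingGroup (Fin m)).subtype
          (Subgroup.subtype_injective _) h7
        exact Pool.Agent.Helper42.PL.cyc_of_inj e.toMonoidHom e.injective h8
    · rcases Pool.Agent.Helper57.PL.psl_cases (k := k) hp2 with h5 | ⟨h5, h6⟩
      · exact Or.inr (Or.inl (Pool.Agent.Helper42.PL.cyc_of_inj e.toMonoidHom e.injective h5))
      · exact Or.inr (Or.inr (Or.inr ⟨k, inferInstance, inferInstance, h5, h6, ⟨e⟩⟩))

end Pool.Agent.Helper24.UN
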